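import Mathlib
import Pool.Agent.H455.CB4

set_option autoImplicit false

/-!
# MP_821da1_nt: integer points whose abscissa has compressible digits on the curves which are
# unramified over the line at infinity, the other coordinate arbitrary

Fix a base `b ≥ 2`. The abscissa `x` of an integer point is assumed to have digits in base `b` which
form (read from the first to the last one or from the last to the first one) a word with at most `z`
Lempel-Ziv phrases: each phrase is a single digit or a copy of a block which begins further to the
left and may overlap the phrase. Examples are the integers with few nonzero digits, the integers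
`u v v ... v w` and so on; the lengths of the blocks and of the periods are arbitrary. Or a multiple
`k x`, `1 ≤ k ≤ M`, is a sum of `z` terms `v b ^ l` with integers `|v| ≤ M`. There is no dominating
term. The ordinate `y` is ARBITRARY.

For all `d, z, H, b` there is ONE constant `C` such that for ALL curves `F = 0` of degree at most `d`
with integral coefficients of absolute value at most `M`, without a nonconstant parametrisation by
Laurent polynomials, all these integer points satisfy `|x|, |y| ≤ (2 M) ^ C`, provided that

* the form of the highest degree of `F` has no multiple factor, and its coefficients are bounded by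
  `H` (a curve of degree `D` with `D` different points at infinity), or more generally
* for all weights `p, q ≥ 1` the part `F_{p,q}` of highest weight `p i + q j` is a monomial, or `p`
  divides `q` and `F_{p,q} (1, T) = c T ^ l E (T)` with `E` squarefree with integral coefficients
  bounded by `H` (at the places at infinity with `x = ∞` the function `x` is unramified, and the
  branches have different leading terms). For instance `y ^ 2 = a x ^ (2 k) + ...`.

The proof: for a bounded number of copied blocks whose periods are not very short the digits give a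
sum of few powers of `b`, the very short periods contribute a small denominator; on a subsequence the
powers whose exponents are close together are collected in a slowly growing integral coefficient `A`
of the leading power; since the slopes are integral, the expansions of `y` involve powers of `A`, but
no roots; then the theorem with moving coefficients for sparse abscissas applies.
-/

namespace Pool.Agent.Results.MP_821da1_nt.CompressibleAbscissa

open MvPolynomial
open Pool.Agent.H455.CB

/-- Every solution of `F (x, y) = 0` in Laurent polynomials with algebraic coefficients is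
constant. -/
def NoLaurentCurve (F : MvPolynomial (Fin 2) ℤ) : Prop :=
  ∀ p : Fin 2 → LaurentPolynomial (AlgebraicClosure ℚ), aeval p F = 0 →
    ∀ i, ∃ c, p i = LaurentPolynomial.C c

/-- The weight `p i + q j` of the monomial `x ^ i y ^ j`. -/
def weight (p q : ℕ) (m : Fin 2 →₀ ℕ) : ℕ := p * m 0 + q * m 1

/-- The highest weight of a monomial of `F`. -/
def topWeight (p q : ℕ) (F : MvPolynomial (Fin 2) ℤ) : ℕ := F.support.sup (weight p q)

/-- The polynomial `F_{p,q} (1, T)`, where `F_{p,q}` is the sum of the terms of `F` of the highest
weight. -/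
noncomputable def leading (p q : ℕ) (F : MvPolynomial (Fin 2) ℤ) : Polynomial ℤ :=
  ∑ m ∈ F.support with weight p q m = topWeight p q F,
    Polynomial.C (coeff m F) * Polynomial.X ^ m 1

/-- For all weights `p, q ≥ 1` the part `F_{p,q}` is a monomial, or `p` divides `q` and
`F_{p,q} (1, T) = c T ^ l E (T)` with a rational number `c ≠ 0` and a squarefree polynomial `E` with
integral coefficients of absolute value at most `H`. -/
def Unramified (F : MvPolynomial (Fin 2) ℤ) (H : ℕ) : Prop :=
  ∀ p q : ℕ, 1 ≤ p → 1 ≤ q →
    (∃ m, ∀ m' ∈ F.support, weight p q m' = topWeight p q F → m' = m) ∨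
    (p ∣ q ∧ ∃ (c : ℚ) (l : ℕ) (E : Polynomial ℤ), c ≠ 0 ∧
      Squarefree (E.map (Int.castRingHom ℚ)) ∧ (∀ i, |E.coeff i| ≤ H) ∧
      (leading p q F).map (Int.castRingHom ℚ) =
        Polynomial.C c * Polynomial.X ^ l * E.map (Int.castRingHom ℚ))

/-- The polynomial `F_D (1, T)`, where `F_D` is the form of the highest degree `D` of `F`. -/
noncomputable def topForm (F : MvPolynomial (Fin 2) ℤ) : Polynomial ℤ :=
  ∑ m ∈ F.support with m 0 + m 1 = F.totalDegree, Polynomial.C (coeff m F) * Polynomial.X ^ m 1

/-- The form of the highest degree has no multiple factors (`F_D (1, T)` has none, and `x ^ 2` does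
not divide `F_D`), and its coefficients are of absolute value at most `H`. -/
def DistinctAtInfinity (F : MvPolynomial (Fin 2) ℤ) (H : ℕ) : Prop :=
  Squarefree ((topForm F).map (Int.castRingHom ℚ)) ∧ F.totalDegree ≤ (topForm F).natDegree + 1 ∧
    ∀ i, |(topForm F).coeff i| ≤ H

/-- The letters in the positions `n ≤ j < m` of the word `a` form one phrase: it is a single letter,
or a copy of a block of letters starting `p` positions earlier (which may overlap the phrase). -/
def Phrase {α : Type} (a : ℕ → α) (n m : ℕ) : Prop :=
  m = n + 1 ∨ (n ≤ m ∧ ∃ p, 0 < p ∧ p ≤ n ∧ ∀ j, n ≤ j → j < m → a j = a (j - p))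

/-- The word `a 0, …, a (L - 1)` is a concatenation of `z` phrases. -/
def Compressible {α : Type} (a : ℕ → α) (L z : ℕ) : Prop :=
  ∃ c : ℕ → ℕ, c 0 = 0 ∧ c z = L ∧ ∀ i < z, Phrase a (c i) (c (i + 1))

/-- The digit of `|x|` in base `b` at the place `i` (the last digit has the place `0`). -/
def digit (b : ℕ) (x : ℤ) (i : ℕ) : ℕ := x.natAbs / b ^ i % b

/-- The number of digits of `|x|` in base `b`. -/
def places (b : ℕ) (x : ℤ) : ℕ := (Nat.digits b x.natAbs).length

/-- The digits of `|x|` in base `b`, read from the last to the first one or from the first to the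
last one, form a word with `z` phrases. -/
def CompressibleDigits (b z : ℕ) (x : ℤ) : Prop :=
  Compressible (fun j => digit b x j) (places b x) z ∨
    Compressible (fun j => digit b x (places b x - 1 - j)) (places b x) z

/-- A multiple `k x`, `1 ≤ k ≤ M`, is a sum of `z` terms `v b ^ l` with integers `|v| ≤ M`. -/
def FewPowers (b z : ℕ) (M : ℝ) (x : ℤ) : Prop :=
  ∃ (k : ℕ) (l : Fin z → ℕ) (v : Fin z → ℤ), 0 < k ∧ (k : ℝ) ≤ M ∧ (∀ j, |(v j : ℝ)| ≤ M) ∧
    (k : ℤ) * x = ∑ j, v j * (b : ℤ) ^ l j

/-- **Main theorem.** -/
theorem result (d z H b : ℕ) (hb : 2 ≤ b) :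
    ∃ C : ℕ, ∀ (F : MvPolynomial (Fin 2) ℤ) (M : ℝ), F.totalDegree ≤ d → NoLaurentCurve F →
      1 ≤ M → (∀ m, |((coeff m F : ℤ) : ℝ)| ≤ M) → DistinctAtInfinity F H ∨ Unramified F H →
      ∀ x y : ℤ, eval ![x, y] F = 0 → CompressibleDigits b z x ∨ FewPowers b z M x →
        |(x : ℝ)| ≤ (2 * M) ^ C ∧ |(y : ℝ)| ≤ (2 * M) ^ C := by
  obtain ⟨C, hC⟩ := main d z H b hb
  have hl2 : 0 < Real.log 2 := Real.log_pos (by norm_num)
  obtain ⟨N, hN⟩ := exists_nat_ge (|C| / Real.log 2)
  rw [div_le_iff₀ hl2] at hN
  refine ⟨N, fun F M hF hno hM hcoef hdis x y hxy hx => ?_⟩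
  have hU : Unr F H := by
    rcases hdis with h | h
    · exact unr_of_dist h
    · intro p q hp hq
      rcases h p q hp hq with h1 | ⟨h1, c, l, E, h2, h3, h4, h5⟩
      · exact Or.inl h1
      · refine Or.inr ⟨h1, c, l, E, h2, h3, h4, ?_⟩
        rw [← h5, leading, Polynomial.map_sum]
        refine Finset.sum_congr rfl fun m _ => ?_
        rw [Polynomial.map_mul, Polynomial.map_C, Polynomial.map_pow, Polynomial.map_X]
        simp
  let P : Pnt d H :=
    { F := F
      M := M
      x := x
      y := y
      hF := hF
      hno := Pool.Agent.H455.VC.noLaurent_of F hno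
      hM := hM
      hcoef := hcoef
      hU := hU
      hxy := hxy }
  have h1 : Real.log (max (max |(x : ℝ)| |(y : ℝ)|) 1) ≤ C * (1 + Real.log M) := hC P hx
  have hlM : 0 ≤ Real.log M := Real.log_nonneg hM
  have h2 : C * (1 + Real.log M) ≤ N * Real.log (2 * M) := by
    rw [Real.log_mul (by norm_num) (by linarith)]
    have h3 : C ≤ N * Real.log 2 := (le_abs_self C).trans hN
    have h4 : Real.log 2 ≤ 1 := by
      have := Real.log_two_lt_d9
      linarith
    have h5 : (N : ℝ) * Real.log 2 * Real.log M ≤ N * Real.log M := by
      have h6 : (0 : ℝ) ≤ N * Real.log M := mul_nonneg (Nat.cast_nonneg _) hlM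
      nlinarith
    nlinarith
  have h3 : max (max |(x : ℝ)| |(y : ℝ)|) 1 ≤ (2 * M) ^ N := by
    rw [← Real.log_le_log_iff (by positivity) (by positivity), Real.log_pow]
    exact h1.trans h2
  exact ⟨((le_max_left _ _).trans (le_max_left _ _)).trans h3,
    ((le_max_right _ _).trans (le_max_left _ _)).trans h3⟩

end Pool.Agent.Results.MP_821da1_nt.CompressibleAbscissa
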