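import Mathlib
import Pool.Agent.H455.LZP
import Pool.Agent.H455.QP3

set_option autoImplicit false

/-!
# Effective bounds for the integer points of plane curves whose digits are compressible

All plane curves `F = 0`, `F` an integral polynomial, without nonconstant rational parametrisation
over `ℂ` (for absolutely irreducible `F` this means that the genus is at least one); `d` bounds the
degree and `A` the length of `F`.

The Lempel-Ziv complexity of a word is at most `z` if the word is the concatenation of `z` phrases,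
each of which is a single letter or a copy of a block of letters that starts further to the left
(the block may overlap the phrase). For instance `u ^ m`, `u` a word of length `k`, has complexity at
most `k + 1` for all `m`.

1. (every integer point, every base) If `(x, y)` is an integer point of `F = 0` and if, in some base
   `b ≥ 2`, the word of the pairs of the digits of `x` and `y` has complexity at most `z`, then
   `max |x| |y| ≤ (A (6 ^ (z + 1) (b - 1)) ^ d) ^ (1 + 8 (4 d) ^ (6 ^ (z + 1)))`.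
   So the complexity of the word of the digits of an integer point `P` is at least of the order
   `log log log |P|`, effectively, on all these curves and in all bases.
2. (arbitrary digits) The same for all representations of `x` and `y` in an integral base `b`,
   `|b| ≥ 2`, with integral digits of absolute value at most `B`.
3. (algebraic bases) The same for the points over a number field `K`, in any base `t ∈ K` which is not
   a root of unity, with digits in `K`, up to a common factor `w` of the vector `(1, x, y)`. The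
   bound is linear in the height of the digits and depends on `K` and `t` only through this height.

4. (two different bases) Let the degree, the complexity `z` and two bases `b`, `b'` be given. There
   is ONE number `C` such that for all these curves `F = 0`, `M` a bound for the coefficients of `F`:
   all integer points `(x, y)` such that `x` has complexity at most `z` in base `b` and `y` has
   complexity at most `z` in base `b'`, with digits of absolute value at most `B`, satisfy
   `|x|, |y| ≤ (3 M B) ^ C`.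

The length of the words and the lengths of the phrases do not enter.
-/

namespace Pool.Agent.Results.MP_821da1_nt.CompressiblePoints

open Finset Height NumberField

/-- The curve `F = 0` has no nonconstant point over the field `ℂ(T)`. -/
def NoRationalCurve (F : MvPolynomial (Fin 2) ℤ) : Prop :=
  ∀ p : Fin 2 → RatFunc ℂ, MvPolynomial.aeval p F = 0 → ∀ i, ∃ c : ℂ, p i = RatFunc.C c

/-- The letters in the positions `n ≤ j < m` of the word `a` form one phrase: it is a single letter,
or a copy of a block of letters starting `p` positions earlier (which may overlap the phrase). -/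
def Phrase {α : Type} (a : ℕ → α) (n m : ℕ) : Prop :=
  m = n + 1 ∨ (n ≤ m ∧ ∃ p, 0 < p ∧ p ≤ n ∧ ∀ j, n ≤ j → j < m → a j = a (j - p))

/-- The word `a 0, …, a (L - 1)` is a concatenation of `z` phrases: its Lempel-Ziv complexity is at
most `z`. -/
def Compressible {α : Type} (a : ℕ → α) (L z : ℕ) : Prop :=
  ∃ c : ℕ → ℕ, c 0 = 0 ∧ c z = L ∧ ∀ i < z, Phrase a (c i) (c (i + 1))

/-- The digit of `b ^ (L - 1 - j)` of the integer `x` in base `b`, with the sign of `x`; for
`|x| < b ^ L` these are for `j = 0, …, L - 1` all the digits of `x`, the leading digit first. -/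
def digit (b L : ℕ) (x : ℤ) (j : ℕ) : ℤ := x.sign * ((x.natAbs / b ^ (L - 1 - j) % b : ℕ) : ℤ)

/-- The absolute logarithmic projective height of a vector over a number field. -/
noncomputable def absHeight (K : Type) [Field K] [NumberField K] {ι : Type} (x : ι → K) : ℝ :=
  logHeight x / Module.finrank ℚ K

/-- The absolute logarithmic projective height of the tuple of all coordinates of the digits
`a 0, …, a (L - 1)`. -/
noncomputable def digitHeight (K : Type) [Field K] [NumberField K] (a : ℕ → Fin 3 → K) (L : ℕ) : ℝ :=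
  absHeight K (fun q : Fin L × Fin 3 => a q.1 q.2)

theorem explicit (F : MvPolynomial (Fin 2) ℤ) (hyp : NoRationalCurve F) (d : ℕ) (hd : 1 ≤ d)
    (hF : F.totalDegree ≤ d) (A : ℝ) (hA : 1 ≤ A)
    (hFA : ∑ α ∈ F.support, |((MvPolynomial.coeff α F : ℤ) : ℝ)| ≤ A) :
    (∀ x y : ℤ, MvPolynomial.eval ![x, y] F = 0 → ∀ b L z : ℕ, 2 ≤ b → x.natAbs < b ^ L →
      y.natAbs < b ^ L → Compressible (fun j => (digit b L x j, digit b L y j)) L z →
      max |(x : ℝ)| |(y : ℝ)| ≤
        (A * (6 ^ (z + 1) * ((b : ℝ) - 1)) ^ d) ^ (1 + 8 * (4 * d) ^ (6 ^ (z + 1)))) ∧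
    (∀ x y : ℤ, MvPolynomial.eval ![x, y] F = 0 → ∀ b : ℤ, 2 ≤ |b| → ∀ (L z : ℕ) (B : ℝ), 1 ≤ B →
      ∀ a a' : ℕ → ℤ, (∀ j < L, |(a j : ℝ)| ≤ B) → (∀ j < L, |(a' j : ℝ)| ≤ B) →
      Compressible (fun j => (a j, a' j)) L z →
      x = ∑ j ∈ range L, b ^ (L - 1 - j) * a j → y = ∑ j ∈ range L, b ^ (L - 1 - j) * a' j →
      max |(x : ℝ)| |(y : ℝ)| ≤
        (A * (6 ^ (z + 1) * B) ^ d) ^ (1 + 8 * (4 * d) ^ (6 ^ (z + 1)))) ∧
    (∀ (K : Type) [Field K] [NumberField K] (t : K), (∀ p, 0 < p → t ^ p ≠ 1) →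
      ∀ (L z : ℕ) (a : ℕ → Fin 3 → K), Compressible a L z → ∀ x y w : K,
      MvPolynomial.aeval ![x, y] F = 0 → w ≠ 0 →
      w = ∑ j ∈ range L, t ^ (L - 1 - j) * a j 0 →
      w * x = ∑ j ∈ range L, t ^ (L - 1 - j) * a j 1 →
      w * y = ∑ j ∈ range L, t ^ (L - 1 - j) * a j 2 →
      absHeight K ![1, x, y] ≤ (1 + 8 * (4 * d) ^ (6 ^ z)) *
        (d * digitHeight K a L + Real.log (A * 6 ^ (z * d)))) := by
  refine ⟨fun x y hxy b L z hb hx hy hLZ => ?_, fun x y hxy b hb L z B hB a a' ha ha' hLZ hx hy => ?_,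
    fun K _ _ t ht L z a hLZ x y w hxy hw h0 h1 h2 => ?_⟩
  · have hB : (1 : ℝ) ≤ (b : ℝ) - 1 := by
      have : (2 : ℝ) ≤ b := by exact_mod_cast hb
      linarith
    have hb2 : (2 : ℤ) ≤ |(b : ℤ)| := by
      rw [abs_of_nonneg (by positivity)]
      exact_mod_cast hb
    exact Pool.Agent.H455.LZP.plane_digits F hyp d hd hF A hA hFA x y hxy b hb2 L z ((b : ℝ) - 1) hB
      (digit b L x) (digit b L y) (fun j _ => Pool.Agent.H455.LZP.digit_le b hb x _)
      (fun j _ => Pool.Agent.H455.LZP.digit_le b hb y _) hLZ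
      (Pool.Agent.H455.LZP.int_digits b (by omega) L x hx)
      (Pool.Agent.H455.LZP.int_digits b (by omega) L y hy)
  · exact Pool.Agent.H455.LZP.plane_digits F hyp d hd hF A hA hFA x y hxy b hb L z B hB a a' ha ha'
      hLZ hx hy
  · exact Pool.Agent.H455.LZP.plane_lz K F hyp d hd hF A hA hFA t ht L z a hLZ x y w hxy hw h0 h1 h2

theorem result :
    (∀ (F : MvPolynomial (Fin 2) ℤ), NoRationalCurve F → ∀ d : ℕ, 1 ≤ d → F.totalDegree ≤ d →
      ∀ A : ℝ, 1 ≤ A → ∑ α ∈ F.support, |((MvPolynomial.coeff α F : ℤ) : ℝ)| ≤ A →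
      -- every integer point, every base
      (∀ x y : ℤ, MvPolynomial.eval ![x, y] F = 0 → ∀ b L z : ℕ, 2 ≤ b → x.natAbs < b ^ L →
        y.natAbs < b ^ L → Compressible (fun j => (digit b L x j, digit b L y j)) L z →
        max |(x : ℝ)| |(y : ℝ)| ≤
          (A * (6 ^ (z + 1) * ((b : ℝ) - 1)) ^ d) ^ (1 + 8 * (4 * d) ^ (6 ^ (z + 1)))) ∧
      -- arbitrary digits
      (∀ x y : ℤ, MvPolynomial.eval ![x, y] F = 0 → ∀ b : ℤ, 2 ≤ |b| → ∀ (L z : ℕ) (B : ℝ), 1 ≤ B →
        ∀ a a' : ℕ → ℤ, (∀ j < L, |(a j : ℝ)| ≤ B) → (∀ j < L, |(a' j : ℝ)| ≤ B) →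
        Compressible (fun j => (a j, a' j)) L z →
        x = ∑ j ∈ range L, b ^ (L - 1 - j) * a j → y = ∑ j ∈ range L, b ^ (L - 1 - j) * a' j →
        max |(x : ℝ)| |(y : ℝ)| ≤
          (A * (6 ^ (z + 1) * B) ^ d) ^ (1 + 8 * (4 * d) ^ (6 ^ (z + 1)))) ∧
      -- algebraic bases
      (∀ (K : Type) [Field K] [NumberField K] (t : K), (∀ p, 0 < p → t ^ p ≠ 1) →
        ∀ (L z : ℕ) (a : ℕ → Fin 3 → K), Compressible a L z → ∀ x y w : K,
        MvPolynomial.aeval ![x, y] F = 0 → w ≠ 0 →
        w = ∑ j ∈ range L, t ^ (L - 1 - j) * a j 0 →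
        w * x = ∑ j ∈ range L, t ^ (L - 1 - j) * a j 1 →
        w * y = ∑ j ∈ range L, t ^ (L - 1 - j) * a j 2 →
        absHeight K ![1, x, y] ≤ (1 + 8 * (4 * d) ^ (6 ^ z)) *
          (d * digitHeight K a L + Real.log (A * 6 ^ (z * d))))) ∧
    -- two different bases
    (∀ d : ℕ, 1 ≤ d → ∀ (z : ℕ) (b b' : ℤ), 2 ≤ |b| → 2 ≤ |b'| → ∃ C : ℕ,
      ∀ F : MvPolynomial (Fin 2) ℤ, F.totalDegree ≤ d → NoRationalCurve F → ∀ M B : ℕ, 1 ≤ M →
      1 ≤ B → (∀ α, |MvPolynomial.coeff α F| ≤ M) → ∀ (L L' : ℕ) (a a' : ℕ → ℤ),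
      (∀ j < L, |a j| ≤ B) → (∀ j < L', |a' j| ≤ B) → Compressible a L z → Compressible a' L' z →
      ∀ x y : ℤ, MvPolynomial.eval ![x, y] F = 0 → x = ∑ j ∈ range L, b ^ (L - 1 - j) * a j →
      y = ∑ j ∈ range L', b' ^ (L' - 1 - j) * a' j →
      |x| ≤ (3 * M * B) ^ C ∧ |y| ≤ (3 * M * B) ^ C) :=
  ⟨fun F hyp d hd hF A hA hFA => explicit F hyp d hd hF A hA hFA,
    fun d hd z b b' hb hb' => Pool.Agent.H455.QP.two_bases d hd z b b' hb hb'⟩

end Pool.Agent.Results.MP_821da1_nt.CompressiblePoints
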