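import Mathlib
import Pool.Agent.H455.QP2

set_option autoImplicit false

/-!
# Points of plane curves whose coordinates are quotients of sums near a group of finite rank:
a height bound linear in the height of the equation, or a rational curve through the point

Fix a degree `D`, a number `r` of terms and a finitely generated group `Γ` of algebraic numbers, for
instance the `S`-units of a number field. There is ONE constant `A` with the following property for
ALL plane curves `F = 0` of degree at most `D` over all number fields. Let `(x, y)` be a point of the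
curve, algebraic of any degree, with

`x = (∑ u_j s_j a_0j) / (∑ u_j s_j a_1j)`,  `y = (∑ v_j t_j b_0j) / (∑ v_j t_j b_1j)`  (`r` terms each),

where the `u_j`, `v_j` have a power in `Γ`, the points `(s_1 : … : s_r)`, `(t_1 : … : t_r)` have height
less than `ε`, `ε > 0` depending only on `D` and `r`, and `a`, `b` are arbitrary. Then

`h(1 : x : y) ≤ A (1 + h(F) + h(a) + h(b))`

unless a rational curve of degree at most `E(D, r)` on `F = 0` passes through `(x, y)`; and for given
`F`, `a`, `b` the number of the points which are not on such curves is at most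
`A (1 + h(F) + h(a) + h(b)) ^ e`.

For integers: if `F` has integral coefficients of absolute value at most `M` and no nonconstant point
over `ℂ(T)` (for example, if `F` is absolutely irreducible of genus at least one), then all integer
points `(x, y)` of `F = 0` whose coordinates are quotients of sums of at most `r` terms `a_j u_j`,
`u_j` up to sign a product of powers of elements of `S`, `a_j` an integer of absolute value at most
`H`, satisfy `|x|, |y| ≤ (3 M H) ^ C`, with `C` depending on `D`, `r` and `S` only. Neither the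
numerators nor the denominators are bounded.
-/

namespace Pool.Agent.Results.MP_821da1_nt.QuotientPoints

open MvPolynomial Pool.Agent.Helper259.AbsHt

/-- The algebraic numbers. -/
abbrev Qbar : Type := AlgebraicClosure ℚ

/-- `x` is the quotient of the sums `∑ u_j s_j a_0j` and `∑ u_j s_j a_1j ≠ 0`, where every `u_j` has a
power in `Γ` and the absolute logarithmic height of the point `(s_1 : … : s_r)` is less than `ε`. -/
def SparseQuotient {r : ℕ} (Γ : Subgroup Qbarˣ) (ε : ℝ) (a : Fin 2 → Fin r → Qbar) (x : Qbar) :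
    Prop :=
  ∃ (u : Fin r → Qbarˣ) (s : Fin r → Qbar), (∀ j, ∃ m : ℕ, 0 < m ∧ u j ^ m ∈ Γ) ∧
    absLogHeight s < ε ∧ ∑ j, (u j : Qbar) * s j * a 1 j ≠ 0 ∧
      x = (∑ j, (u j : Qbar) * s j * a 0 j) / ∑ j, (u j : Qbar) * s j * a 1 j

/-- The exponents of degree at most `D`. -/
abbrev Exponents (D : ℕ) : Type := {α : Fin 2 →₀ ℕ // α.degree ≤ D}

/-- The height of a polynomial of degree at most `D`: the absolute logarithmic height of the point
with the projective coordinates `1` and the coefficients of `F`. -/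
noncomputable def polyHeight (D : ℕ) (F : MvPolynomial (Fin 2) Qbar) : ℝ :=
  absLogHeight (fun o : Option (Exponents D) => o.elim (1 : Qbar) (fun α => coeff α.1 F))

/-- The height `h(a)` of the point with the `2 r` projective coordinates `a i j`. -/
noncomputable def dataHeight {r : ℕ} (a : Fin 2 → Fin r → Qbar) : ℝ :=
  absLogHeight (fun p : Fin 2 × Fin r => a p.1 p.2)

/-- The point `(x, y)` is the value at `t = 1` of a nonconstant rational map
`t ↦ (P(t) / R(t), Q(t) / R(t))` of degree at most `E` to the curve `F = 0`. -/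
def OnRationalCurve (E : ℕ) (F : MvPolynomial (Fin 2) Qbar) (x y : Qbar) : Prop :=
  ∃ P Q R : Polynomial Qbar, P.natDegree ≤ E ∧ Q.natDegree ≤ E ∧ R.natDegree ≤ E ∧
    R.eval 1 ≠ 0 ∧ P.eval 1 = x * R.eval 1 ∧ Q.eval 1 = y * R.eval 1 ∧
    (∀ t, R.eval t ≠ 0 → aeval ![P.eval t / R.eval t, Q.eval t / R.eval t] F = 0) ∧
    (P ≠ Polynomial.C x * R ∨ Q ≠ Polynomial.C y * R)

/-- The curve `F = 0` has no nonconstant point over the field `ℂ(T)`. -/
def NoRationalCurve (F : MvPolynomial (Fin 2) ℤ) : Prop :=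
  ∀ p : Fin 2 → RatFunc ℂ, aeval p F = 0 → ∀ i, ∃ c : ℂ, p i = RatFunc.C c

/-- Up to the sign, `u` is a product of powers, with integral exponents, of elements of `S`. -/
def UnitOf (S : Finset ℕ) (u : ℚ) : Prop := ∃ e : ℕ → ℤ, |u| = ∏ p ∈ S, (p : ℚ) ^ e p

theorem hF_eq (D : ℕ) (F : MvPolynomial (Fin 2) Qbar) :
    Pool.Agent.H455.QP.hF D F ≤ polyHeight D F := by
  unfold Pool.Agent.H455.QP.hF Pool.Agent.Q204.UF.hFc Pool.Agent.Y215.AF.hA polyHeight
  have h := absLogHeight_comp_le
    (fun o : Option (Fin 1 × Pool.Agent.Q204.UF.AI 2 D) => o.map (fun x => (x.2 : Exponents D)))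
    (fun o : Option (Exponents D) => o.elim (1 : Qbar) (fun α => coeff α.1 F))
  refine le_trans (le_of_eq ?_) h
  congr 1
  funext o
  cases o <;> rfl

theorem result (D : ℕ) (hD : 1 ≤ D) (r : ℕ) :
    (∃ (E : ℕ) (ε : ℝ), 0 < ε ∧ ∀ Γ : Subgroup Qbarˣ, Γ.FG → ∃ (A : ℝ) (e : ℕ),
      ∀ F : MvPolynomial (Fin 2) Qbar, F.totalDegree ≤ D → ∀ a b : Fin 2 → Fin r → Qbar,
        (∀ x y : Qbar, aeval ![x, y] F = 0 → SparseQuotient Γ ε a x → SparseQuotient Γ ε b y →
          absLogHeight ![1, x, y] ≤ A * (1 + polyHeight D F + dataHeight a + dataHeight b) ∨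
            OnRationalCurve E F x y) ∧
        {q : Qbar × Qbar | aeval ![q.1, q.2] F = 0 ∧ SparseQuotient Γ ε a q.1 ∧
          SparseQuotient Γ ε b q.2 ∧ ¬ OnRationalCurve E F q.1 q.2}.Finite ∧
        ({q : Qbar × Qbar | aeval ![q.1, q.2] F = 0 ∧ SparseQuotient Γ ε a q.1 ∧
          SparseQuotient Γ ε b q.2 ∧ ¬ OnRationalCurve E F q.1 q.2}.ncard : ℝ) ≤
          A * (1 + polyHeight D F + dataHeight a + dataHeight b) ^ e) ∧
    (∀ S : Finset ℕ, (∀ p ∈ S, p ≠ 0) → ∃ C : ℕ, ∀ F : MvPolynomial (Fin 2) ℤ,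
      F.totalDegree ≤ D → NoRationalCurve F → ∀ M H : ℕ, 1 ≤ M → 1 ≤ H → (∀ α, |coeff α F| ≤ M) →
      ∀ (a b : Fin 2 → Fin r → ℤ) (u v : Fin r → ℚ), (∀ i j, |a i j| ≤ H) → (∀ i j, |b i j| ≤ H) →
      (∀ j, UnitOf S (u j)) → (∀ j, UnitOf S (v j)) → ∀ x y : ℤ, eval ![x, y] F = 0 →
      ∑ j, u j * a 1 j ≠ 0 → x * ∑ j, u j * a 1 j = ∑ j, u j * a 0 j →
      ∑ j, v j * b 1 j ≠ 0 → y * ∑ j, v j * b 1 j = ∑ j, v j * b 0 j →
      |x| ≤ (3 * M * H) ^ C ∧ |y| ≤ (3 * M * H) ^ C) := by
  classical
  refine ⟨⟨Pool.Agent.Q204.UF.expB D (r * r),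
    Pool.Agent.Y215.SP.epsn ((D + 1) ^ (r * r)) / D / 2 / 2, ?_, fun Γ hΓ => ?_⟩, fun S hS => ?_⟩
  · exact half_pos (half_pos (div_pos (Pool.Agent.Y215.SP.epsn_pos _
      (Nat.one_le_pow _ _ (by omega))) (by exact_mod_cast hD)))
  · have hε : 0 < Pool.Agent.Y215.SP.epsn ((D + 1) ^ (r * r)) / D / 2 / 2 :=
      half_pos (half_pos (div_pos (Pool.Agent.Y215.SP.epsn_pos _
        (Nat.one_le_pow _ _ (by omega))) (by exact_mod_cast hD)))
    obtain ⟨A, hA0, hA⟩ := Pool.Agent.H455.QP.quot_heights D hD r Γ hΓ _ hε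
    obtain ⟨B, e, hB0, hB⟩ := Pool.Agent.H455.QP.quot_near D hD r Γ hΓ
    refine ⟨A + B, e, fun F hF a b => ⟨fun x y hxy hx hy => ?_, ?_, ?_⟩⟩
    · have h0 : 0 ≤ 1 + polyHeight D F + dataHeight a + dataHeight b := by
        have h1 : 0 ≤ polyHeight D F := absLogHeight_nonneg _
        have h2 : 0 ≤ dataHeight a := absLogHeight_nonneg _
        have h3 : 0 ≤ dataHeight b := absLogHeight_nonneg _
        linarith
      have h5 := hF_eq D F
      rcases hA F hF a b x y hxy hx hy with h | h
      · left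
        refine h.trans ?_
        calc A * (1 + Pool.Agent.H455.QP.hF D F + Pool.Agent.Q194.UG.hD a +
              Pool.Agent.Q194.UG.hD b) ≤ A * (1 + polyHeight D F + dataHeight a + dataHeight b) :=
              mul_le_mul_of_nonneg_left (by
                have e1 : Pool.Agent.Q194.UG.hD a = dataHeight a := rfl
                have e2 : Pool.Agent.Q194.UG.hD b = dataHeight b := rfl
                rw [e1, e2]
                linarith) hA0
          _ ≤ (A + B) * (1 + polyHeight D F + dataHeight a + dataHeight b) :=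
              mul_le_mul_of_nonneg_right (by linarith) h0
      · right
        exact h
    · exact (hB F hF a b).1
    · refine ((hB F hF a b).2).trans ?_
      have h1 : 0 ≤ Pool.Agent.H455.QP.hF D F := Pool.Agent.H455.QP.hF_nonneg D F
      have h2 : 0 ≤ dataHeight a := absLogHeight_nonneg _
      have h3 : 0 ≤ dataHeight b := absLogHeight_nonneg _
      have h5 := hF_eq D F
      have e1 : Pool.Agent.Q194.UG.hD a = dataHeight a := rfl
      have e2 : Pool.Agent.Q194.UG.hD b = dataHeight b := rfl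
      rw [e1, e2]
      exact mul_le_mul (by linarith) (pow_le_pow_left₀ (by linarith) (by linarith) _)
        (by positivity) (by linarith)
  · obtain ⟨C, hC⟩ := Pool.Agent.H455.QP.int_quot D hD r (Pool.Agent.Q204.UF.grpS S)
      (Pool.Agent.Q204.UF.grpS_fg S)
    refine ⟨C, ?_⟩
    intro F hF hno M H hM hH hFM a b u v ha hb hu hv x y hxy ha0 hax hb0 hby
    have hne : ∀ w : ℚ, UnitOf S w → algebraMap ℚ Qbar w ≠ 0 := by
      rintro w ⟨e, he⟩
      refine (map_ne_zero _).2 ?_
      rintro rfl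
      rw [abs_zero] at he
      exact (Finset.prod_ne_zero_iff.2 fun p hp => zpow_ne_zero _
        (Nat.cast_ne_zero.2 (hS p hp))) he.symm
    have key : ∀ w : Fin r → ℚ, (∀ j, UnitOf S (w j)) → ∃ w' : Fin r → Qbarˣ,
        (∀ j, (w' j : Qbar) = algebraMap ℚ Qbar (w j)) ∧
        ∀ j, ∃ m : ℕ, 0 < m ∧ w' j ^ m ∈ Pool.Agent.Q204.UF.grpS S := by
      intro w hw
      refine ⟨fun j => Units.mk0 _ (hne _ (hw j)), fun j => rfl, fun j => ⟨1, one_pos, ?_⟩⟩
      rw [pow_one]
      obtain ⟨e, he⟩ := hw j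
      exact Pool.Agent.Q204.UF.mem_grpS S hS _ _ rfl e he
    obtain ⟨u', hu1, hu2⟩ := key u hu
    obtain ⟨v', hv1, hv2⟩ := key v hv
    have hsum : ∀ (w : Fin r → ℚ) (w' : Fin r → Qbarˣ) (c : Fin r → ℤ),
        (∀ j, (w' j : Qbar) = algebraMap ℚ Qbar (w j)) →
        ∑ j, (w' j : Qbar) * (c j : Qbar) = algebraMap ℚ Qbar (∑ j, w j * c j) := by
      intro w w' c hw
      rw [map_sum]
      refine Finset.sum_congr rfl fun j _ => ?_
      rw [hw, map_mul, map_intCast]
    refine hC F hF hno M H hM hH hFM a b u' v' ha hb hu2 hv2 x y hxy ?_ ?_ ?_ ?_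
    · rw [hsum u u' _ hu1]
      exact (map_ne_zero _).2 ha0
    · rw [hsum u u' _ hu1, hsum u u' _ hu1, ← hax, map_mul, map_intCast]
    · rw [hsum v v' _ hv1]
      exact (map_ne_zero _).2 hb0
    · rw [hsum v v' _ hv1, hsum v v' _ hv1, ← hby, map_mul, map_intCast]

end Pool.Agent.Results.MP_821da1_nt.QuotientPoints
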