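import Mathlib
import Pool.Agent.H455.VC11

set_option autoImplicit false

/-!
# MP_821da1_nt: integer points with one sparse coordinate on plane curves, the other coordinate
arbitrary

Let `S` be a finite set of primes. The abscissa `x` of an integer point is sparse here if
`b x = a 0 * u 0 + ... + a r * u r` with integers `b ≠ 0`, `a i` of absolute value at most `M`,
`a 0 ≠ 0`, and positive integers `u i` composed of the primes in `S` such that the first one
dominates, `u i ≤ (u 0) ^ (1 - η)` for `i ≠ 0`. The ordinate `y` is ARBITRARY. For the weights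
`p, q ≥ 1` let `F_{p,q}` be the sum of the terms of `F` of the highest weight `p i + q j`.

For all `d, r, H, S, η` there is ONE constant `C` such that for ALL curves `F = 0` of degree at most
`d` with integral coefficients of absolute value at most `M` without a nonconstant parametrisation by
Laurent polynomials (the curves to which Siegel's theorem applies, for example all absolutely
irreducible curves of genus at least `1`), all integer points `(x, y)` with sparse abscissa satisfy
`|x|, |y| ≤ (2 M) ^ C`, provided that up to a rational factor and the scaling by a rational number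
`h / g`, `|g|, |h| ≤ M`, all polynomials `F_{p,q} (a 0 / b, T)` are of the form `T ^ l E (T)` with
`E` squarefree with integral coefficients of absolute value at most `H`. For example it suffices that
`a 0`, `b` and the coefficients of all `F_{p,q}` are bounded by `H` and that the `F_{p,q} (1, T)` have
no multiple roots apart from `0`; all other coefficients of `F` are only bounded by `M`.

This covers the curves with one place at infinity, such as
`y ^ p = x ^ q + (terms i, j with p i + q j < p q)`, for `p` and `q` coprime, where no bound for all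
integer points is known if the genus is at least `2` and the curve is not superelliptic.

The proof: the Newton polygon, the expansion of `y` as a polynomial of high degree in the quotients of
the terms (Newton iteration), the subspace theorem with moving coefficients (a small multiple of `y`
is a sum of boundedly many `S`-units as well), and the uniform theorem for points whose two
coordinates are sums of `S`-units.
-/

namespace Pool.Agent.Results.MP_821da1_nt.SparseAbscissa

open MvPolynomial Filter Topology
open Pool.Agent.H455.VC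

/-- Every solution of `F (x, y) = 0` in Laurent polynomials with algebraic coefficients is
constant. -/
def NoLaurentCurve (F : MvPolynomial (Fin 2) ℤ) : Prop :=
  ∀ p : Fin 2 → LaurentPolynomial (AlgebraicClosure ℚ), aeval p F = 0 →
    ∀ i, ∃ c, p i = LaurentPolynomial.C c

/-- The weight `p i + q j` of the monomial `x ^ i y ^ j`. -/
def weight (p q : ℕ) (m : Fin 2 →₀ ℕ) : ℕ := p * m 0 + q * m 1

/-- The highest weight of a monomial of `F`. -/
def topWeight (p q : ℕ) (F : MvPolynomial (Fin 2) ℤ) : ℕ := F.support.sup (weight p q)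

/-- The polynomial `F_{p,q} (ρ, τ T)` in `T`, where `F_{p,q}` is the sum of the terms of `F` of
the highest weight. -/
noncomputable def leading (p q : ℕ) (F : MvPolynomial (Fin 2) ℤ) (ρ τ : ℚ) : Polynomial ℚ :=
  ∑ m ∈ F.support with weight p q m = topWeight p q F,
    Polynomial.C ((coeff m F : ℤ) * ρ ^ m 0 * τ ^ m 1) * Polynomial.X ^ m 1

/-- For all weights `p, q ≥ 1` there are nonzero integers `g`, `h` of absolute value at most `M`
such that `F_{p,q} (ρ, (h / g) T) = c T ^ l E (T)`, `c ≠ 0`, where `E` is squarefree with integral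
coefficients of absolute value at most `H`. -/
def Tame (F : MvPolynomial (Fin 2) ℤ) (H : ℕ) (M : ℝ) (ρ : ℚ) : Prop :=
  ∀ p q : ℕ, 1 ≤ p → 1 ≤ q → ∃ (g h : ℤ) (c : ℚ) (l : ℕ) (E : Polynomial ℤ),
    g ≠ 0 ∧ h ≠ 0 ∧ c ≠ 0 ∧ |(g : ℝ)| ≤ M ∧ |(h : ℝ)| ≤ M ∧
    Squarefree (E.map (Int.castRingHom ℚ)) ∧ (∀ i, |E.coeff i| ≤ H) ∧
    leading p q F ρ (h / g) = Polynomial.C c * Polynomial.X ^ l * E.map (Int.castRingHom ℚ)

/-- For all weights `p, q ≥ 1` the coefficients of `F_{p,q}` are of absolute value at most `H` and
`F_{p,q} (1, T)` is the product of a power of `T` and a squarefree polynomial. -/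
def BoundedTop (F : MvPolynomial (Fin 2) ℤ) (H : ℕ) : Prop :=
  ∀ p q : ℕ, 1 ≤ p → 1 ≤ q →
    (∀ m ∈ F.support, weight p q m = topWeight p q F → |coeff m F| ≤ H) ∧
      ∃ (l : ℕ) (G : Polynomial ℚ), Squarefree G ∧ leading p q F 1 1 = Polynomial.X ^ l * G

/-- `b x = ∑ a i * u i`, where the `u i` are positive integers with all prime factors in `S`, the
first one dominates, and `b ≠ 0` and the `a i` are integers of absolute value at most `M`,
`a 0 ≠ 0`. -/
structure Sparse {r : ℕ} (S : Finset ℕ) (η M : ℝ) (a : Fin (r + 1) → ℤ) (b : ℤ)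
    (u : Fin (r + 1) → ℕ) (x : ℤ) : Prop where
  smooth : ∀ i, u i ≠ 0 ∧ (u i).primeFactors ⊆ S
  dominating : ∀ i, i ≠ 0 → (u i : ℝ) ≤ (u 0 : ℝ) ^ (1 - η)
  bounded : ∀ i, |(a i : ℝ)| ≤ M
  first : a 0 ≠ 0
  denominator : b ≠ 0 ∧ |(b : ℝ)| ≤ M
  eq : b * x = ∑ i, a i * (u i : ℤ)

/-- **Main theorem.** -/
theorem result (d r H : ℕ) (S : Finset ℕ) (η : ℝ) (hη : 0 < η) :
    ∃ C : ℕ, ∀ (F : MvPolynomial (Fin 2) ℤ) (M : ℝ), F.totalDegree ≤ d → NoLaurentCurve F →
      1 ≤ M → (∀ m, |((coeff m F : ℤ) : ℝ)| ≤ M) →
      ∀ (a : Fin (r + 1) → ℤ) (b : ℤ) (u : Fin (r + 1) → ℕ) (x y : ℤ), Sparse S η M a b u x →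
      Tame F H M (a 0 / b) ∨ (|a 0| ≤ H ∧ |b| ≤ H ∧ BoundedTop F H) →
      eval ![x, y] F = 0 → |(x : ℝ)| ≤ (2 * M) ^ C ∧ |(y : ℝ)| ≤ (2 * M) ^ C := by
  classical
  have hSp : ∀ p ∈ S.filter Nat.Prime, p.Prime := fun p hp => (Finset.mem_filter.1 hp).2
  by_contra hcon
  push Not at hcon
  choose F M hF hno hM hcoef a b u x y hsp htame hxy hlt using hcon
  have hTame : ∀ C, Pool.Agent.H455.VC.Tame (F C) (H + H ^ (d + 1)) (M C) (a C 0 / b C) := by
    intro C p q hp hq
    rcases htame C with h | ⟨h1, h2, h3⟩
    · obtain ⟨g, h, c, l, E, e1, e2, e3, e4, e5, e6, e7, e8⟩ := h p q hp hq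
      refine ⟨g, h, c, l, E, e1, e2, e3, e4, e5, e6, fun i => (e7 i).trans ?_, e8⟩
      push_cast
      have : (0 : ℤ) ≤ (H : ℤ) ^ (d + 1) := by positivity
      linarith
    · obtain ⟨g, h, c, l, E, e1, e2, e3, e4, e5, e6, e7, e8⟩ := tame_of_bounded (F C) (hF C)
        (a C 0) (b C) (hsp C).first (hsp C).denominator.1 h1 h2 (M C) (hM C)
        (fun p q hp hq => h3 p q hp hq) p q hp hq
      refine ⟨g, h, c, l, E, e1, e2, e3, e4, e5, e6, fun i => (e7 i).trans ?_, e8⟩
      push_cast
      have : (0 : ℤ) ≤ (H : ℤ) := by positivity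
      linarith
  let D : ℕ → Datum d r (H + H ^ (d + 1)) (S.filter Nat.Prime) η := fun C =>
    { F := F C
      M := M C
      a := a C
      b := b C
      u := u C
      x := x C
      y := y C
      hF := hF C
      hno := noLaurent_of (F C) (hno C)
      hM := hM C
      hcoef := hcoef C
      hu := fun i => ⟨((hsp C).smooth i).1, fun p hp => Finset.mem_filter.2
        ⟨((hsp C).smooth i).2 hp, Nat.prime_of_mem_primeFactors hp⟩⟩
      hdom := (hsp C).dominating
      ha := (hsp C).bounded
      ha0 := (hsp C).first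
      hb := (hsp C).denominator.2
      hb0 := (hsp C).denominator.1
      hx := (hsp C).eq
      hxy := hxy C
      tame := hTame C }
  refine noseq hη hSp D ?_
  have hl2 : 0 < Real.log 2 := Real.log_pos (by norm_num)
  refine tendsto_atTop_mono (fun C => ?_)
    (tendsto_natCast_atTop_atTop.atTop_mul_const hl2 : Tendsto (fun C : ℕ => (C : ℝ) * Real.log 2)
      atTop atTop)
  show (C : ℝ) * Real.log 2 ≤ Real.log (max |(x C : ℝ)| |(y C : ℝ)|) / (1 + Real.log (M C))
  have hlM : 0 ≤ Real.log (M C) := Real.log_nonneg (hM C)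
  have h2M : (0 : ℝ) < 2 * M C := by linarith [hM C]
  have h1 : (2 * M C) ^ C < max |(x C : ℝ)| |(y C : ℝ)| := by
    by_cases h : |(x C : ℝ)| ≤ (2 * M C) ^ C
    · exact lt_max_of_lt_right (hlt C h)
    · exact lt_max_of_lt_left (not_le.1 h)
  have h2 := Real.log_le_log (by positivity) h1.le
  rw [Real.log_pow, Real.log_mul (by norm_num) (by linarith [hM C])] at h2
  rw [le_div_iff₀ (by linarith)]
  refine le_trans ?_ h2
  have h3 : Real.log 2 ≤ 1 := by
    have := Real.log_two_lt_d9
    linarith
  have h4 : Real.log 2 * (1 + Real.log (M C)) ≤ Real.log 2 + Real.log (M C) := by nlinarith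
  calc (C : ℝ) * Real.log 2 * (1 + Real.log (M C)) = C * (Real.log 2 * (1 + Real.log (M C))) := by
        ring
    _ ≤ C * (Real.log 2 + Real.log (M C)) := mul_le_mul_of_nonneg_left h4 (by positivity)

end Pool.Agent.Results.MP_821da1_nt.SparseAbscissa
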